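import Pool.Agent.Helper507.SC.Interface
import Pool.Agent.Helper507.SC.Embed
set_option autoImplicit false
namespace Pool.Agent.Results.MP_f994de_co.SparseCaterpillars

/-- The caterpillar with spine vertices `(0,0), (1,0), …, (n-1,0)` (consecutive ones adjacent) and with
`ℓ i` leaves `(i,1), …, (i,ℓ i)` attached to the spine vertex `(i,0)`. -/
def Cat (n : ℕ) (ℓ : ℕ → ℕ) : SimpleGraph {p : ℕ × ℕ // p.1 < n ∧ p.2 ≤ ℓ p.1} where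
  Adj p q :=
    (p.1.2 = 0 ∧ q.1.2 = 0 ∧ (p.1.1 + 1 = q.1.1 ∨ q.1.1 + 1 = p.1.1)) ∨
      (p.1.1 = q.1.1 ∧ ((p.1.2 = 0 ∧ q.1.2 ≠ 0) ∨ (p.1.2 ≠ 0 ∧ q.1.2 = 0)))
  symm := ⟨by
    intro p q h
    omega⟩
  loopless := ⟨by
    intro p h
    omega⟩

open Pool.Agent.Helper507.SC in
theorem result :
    ∀ (m : ℕ) (T : SimpleGraph (Fin m)), T.IsTree → 3 ≤ m →
      (∃ (n : ℕ) (ℓ : ℕ → ℕ),
        (∀ i j : ℕ, i < j → j < n → ℓ i ≠ 0 → ℓ j ≠ 0 → i + 3 ≤ j) ∧ Nonempty (T ↪g Cat n ℓ)) →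
      ∃ c : ℕ, ∃ (n : ℕ) (β : SimpleGraph (Fin n)),
        IsEmpty (T ↪g β) ∧ IsEmpty ((⊤ : SimpleGraph (Fin 3)) ↪g β) ∧
        ∀ (p : ℕ) (γ : SimpleGraph (Fin p)),
          IsEmpty (T ↪g γ) → IsEmpty ((⊤ : SimpleGraph (Fin 3)) ↪g γ) →
          ∃ f : Fin p → Fin c, ∀ e : β ↪g γ, ∃ x y : Fin n, f (e x) ≠ f (e y) := by
  intro m T hT hm hcat
  obtain ⟨n, ℓ, hsp, ⟨e⟩⟩ := hcat
  by_contra hns
  have hcls := cls_of_not_split T hT.connected hm hns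
  obtain ⟨L, hL, hlen, hLl⟩ := good_list n ℓ hsp
  obtain ⟨V, _, G, v, hG, hC⟩ := hL.hasC hcls
  obtain ⟨E, -, -, hE⟩ := hasC_embed G L v {v}ᶜ hC (by simp) n ℓ (by omega) hLl
  let g : Cat n ℓ ↪g G :=
    { toFun := fun p => E p.1.1 p.1.2
      inj' := by
        intro p q hpq
        have := (hE p.1.1 p.1.2 q.1.1 q.1.2 p.2.1 p.2.2 q.2.1 q.2.2).1 hpq
        exact Subtype.ext (Prod.ext this.1 this.2)
      map_rel_iff' := by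
        intro p q
        exact (hE p.1.1 p.1.2 q.1.1 q.1.2 p.2.1 p.2.2 q.2.1 q.2.2).2 }
  exact hG.1.false (g.comp e)

end Pool.Agent.Results.MP_f994de_co.SparseCaterpillars
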